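import Mathlib

set_option autoImplicit false

/-!
# Continuous first-order logic for metric structures

Signatures, metric structures of diameter at most one, formulas with values in `[0,1]`, theories,
elementary embeddings, types, definable predicates, distance definable sets, stability.
-/

open scoped unitInterval Cardinal

noncomputable section

namespace Pool.Agent.R615.CL

/-- A signature: function symbols and predicate symbols of every arity, each one with a modulus of
uniform continuity. -/
structure Signature where
  /-- the function symbols of arity `n` (constants are the function symbols of arity `0`) -/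
  Fn : ℕ → Type
  /-- the predicate symbols of arity `n` -/
  Pr : ℕ → Type
  /-- the modulus of uniform continuity of a function symbol -/
  modF : {n : ℕ} → Fn n → ℝ → ℝ
  /-- the modulus of uniform continuity of a predicate symbol -/
  modP : {n : ℕ} → Pr n → ℝ → ℝ
  modF_pos : ∀ {n : ℕ} (f : Fn n) (ε : ℝ), 0 < ε → 0 < modF f ε
  modP_pos : ∀ {n : ℕ} (P : Pr n) (ε : ℝ), 0 < ε → 0 < modP P ε

/-- A metric structure: a nonempty complete metric space of diameter at most `1` with
interpretations of the symbols of the signature that respect the moduli of uniform continuity. -/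
structure Struct (L : Signature) where
  /-- the underlying set -/
  carrier : Type
  [metric : MetricSpace carrier]
  [complete : CompleteSpace carrier]
  [nonempty : Nonempty carrier]
  dist_le : ∀ x y : carrier, dist x y ≤ 1
  /-- the interpretation of the function symbols -/
  fn : {n : ℕ} → L.Fn n → (Fin n → carrier) → carrier
  /-- the interpretation of the predicate symbols -/
  pr : {n : ℕ} → L.Pr n → (Fin n → carrier) → I
  fn_unif : ∀ {n : ℕ} (f : L.Fn n) (ε : ℝ), 0 < ε → ∀ x y : Fin n → carrier,
    (∀ i, dist (x i) (y i) < L.modF f ε) → dist (fn f x) (fn f y) ≤ ε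
  pr_unif : ∀ {n : ℕ} (P : L.Pr n) (ε : ℝ), 0 < ε → ∀ x y : Fin n → carrier,
    (∀ i, dist (x i) (y i) < L.modP P ε) → dist (pr P x) (pr P y) ≤ ε

attribute [instance] Struct.metric Struct.complete Struct.nonempty

instance {L : Signature} : CoeSort (Struct L) Type := ⟨Struct.carrier⟩

/-- Terms in the variables `x_0, ..., x_{n-1}`. -/
inductive Term (L : Signature) (n : ℕ) : Type
  | var : Fin n → Term L n
  | app : {k : ℕ} → L.Fn k → (Fin k → Term L n) → Term L n

/-- Formulas with free variables among `x_0, ..., x_{n-1}`: the distance of two terms, predicate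
symbols applied to terms, continuous functions `[0,1]^k → [0,1]` as connectives, and the quantifiers
`sup` and `inf` (which bind the last variable). -/
inductive Formula (L : Signature) : ℕ → Type
  | dist : {n : ℕ} → Term L n → Term L n → Formula L n
  | pr : {n k : ℕ} → L.Pr k → (Fin k → Term L n) → Formula L n
  | conn : {n : ℕ} → (k : ℕ) → C(Fin k → I, I) → (Fin k → Formula L n) → Formula L n
  | sup : {n : ℕ} → Formula L (n + 1) → Formula L n
  | inf : {n : ℕ} → Formula L (n + 1) → Formula L n

variable {L : Signature}

/-- The value of a term. -/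
def Term.val (M : Struct L) {n : ℕ} (x : Fin n → M) : Term L n → M
  | .var i => x i
  | .app f ts => M.fn f (fun j => (ts j).val M x)

/-- The value in `[0,1]` of a formula in `M` at a tuple of elements of `M`. -/
def Formula.val (M : Struct L) : {n : ℕ} → Formula L n → (Fin n → M) → I
  | _, .dist s t, x => ⟨Dist.dist (s.val M x) (t.val M x), dist_nonneg, M.dist_le _ _⟩
  | _, .pr P ts, x => M.pr P (fun j => (ts j).val M x)
  | _, .conn _ u φ, x => u (fun i => (φ i).val M x)
  | _, .sup φ, x => ⨆ y : M, φ.val M (Fin.snoc (α := fun _ => M.carrier) x y)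
  | _, .inf φ, x => ⨅ y : M, φ.val M (Fin.snoc (α := fun _ => M.carrier) x y)

/-- A theory is a set of sentences; `M` is a model of `T` if every sentence in `T` has the value `0`
in `M`. -/
def Models (M : Struct L) (T : Set (Formula L 0)) : Prop :=
  ∀ φ ∈ T, φ.val M Fin.elim0 = 0

/-- `T` is consistent and complete: it has a model, and every sentence has the same value in all the
models of `T`. -/
def IsComplete (T : Set (Formula L 0)) : Prop :=
  (∃ M : Struct L, Models M T) ∧
    ∀ M N : Struct L, Models M T → Models N T →
      ∀ φ : Formula L 0, φ.val M Fin.elim0 = φ.val N Fin.elim0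

/-- The map `f : M → N` is an elementary embedding. -/
def IsElementary (M N : Struct L) (f : M → N) : Prop :=
  ∀ (n : ℕ) (φ : Formula L n) (x : Fin n → M), φ.val N (fun i => f (x i)) = φ.val M x

/-- The type over `A ⊆ M` of the tuple `b` of elements of the extension `N` of `M` (given by the
elementary embedding `f`): the values of all the formulas with parameters from `A` at `b`. -/
def tp {M N : Struct L} (f : M → N) (A : Set M) {n : ℕ} (b : Fin n → N) :
    (k : ℕ) → Formula L (n + k) → (Fin k → A) → I :=
  fun _ φ a => φ.val N (Fin.append b (fun i => f (a i)))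

/-- The space `S_n(A)` of the complete `n`-types over `A ⊆ M`: the types over `A` of the `n`-tuples
of elements of elementary extensions of `M`. -/
def TypeSpace (M : Struct L) (A : Set M) (n : ℕ) :
    Set ((k : ℕ) → Formula L (n + k) → (Fin k → A) → I) :=
  {p | ∃ (N : Struct L) (f : M → N), IsElementary M N f ∧ ∃ b : Fin n → N, p = tp f A b}

/-- The set `p(M)` of the realizations in `M` of the type `p`. -/
def realizations (M : Struct L) (A : Set M) (n : ℕ)
    (p : (k : ℕ) → Formula L (n + k) → (Fin k → A) → I) : Set (Fin n → M) :=
  {c | tp id A c = p}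

/-- `P` is a definable predicate over `A`: a uniform limit of formulas with parameters from `A`. -/
def IsDefinablePredicate (M : Struct L) (A : Set M) {n : ℕ} (P : (Fin n → M) → ℝ) : Prop :=
  ∀ ε : ℝ, 0 < ε → ∃ (k : ℕ) (φ : Formula L (n + k)) (a : Fin k → A), ∀ x : Fin n → M,
    |P x - φ.val M (Fin.append x (fun i => (a i : M)))| ≤ ε

/-- `D ⊆ M^n` is distance definable over `A`: it is closed and either empty (by convention the
distance to the empty set is `1`) or the distance to `D` is a definable predicate over `A`. Here
`M^n` has the maximum metric. -/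
def IsDDefinable (M : Struct L) (A : Set M) {n : ℕ} (D : Set (Fin n → M)) : Prop :=
  IsClosed D ∧ (D = ∅ ∨ IsDefinablePredicate M A (fun x => Metric.infDist x D))

/-- `T` has enough distance definable sets: for every model `M` of `T` and `A ⊆ M`, the set of the
realizations in `M` of a complete type over `A` is an intersection of sets that are distance
definable over `A`. -/
def HasEnough (T : Set (Formula L 0)) : Prop :=
  ∀ M : Struct L, Models M T → ∀ (A : Set M) (n : ℕ), ∀ p ∈ TypeSpace M A n,
    ∃ F : Set (Set (Fin n → M)), (∀ D ∈ F, IsDDefinable M A D) ∧ ⋂₀ F = realizations M A n p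

/-- `T` is stable: no formula has the order property. That is, for no formula `φ(x,y)` and `ε > 0`
there are sequences `a_0, a_1, ...` and `b_0, b_1, ...` of tuples in a model of `T` such that
`|φ(a_i,b_j) - φ(a_j,b_i)| ≥ ε` for all `i < j`. -/
def IsStable (T : Set (Formula L 0)) : Prop :=
  ∀ (n m : ℕ) (φ : Formula L (n + m)) (ε : ℝ), 0 < ε → ∀ M : Struct L, Models M T →
    ¬ ∃ (a : ℕ → Fin n → M) (b : ℕ → Fin m → M), ∀ i j, i < j →
      ε ≤ |(φ.val M (Fin.append (a i) (b j)) : ℝ) - φ.val M (Fin.append (a j) (b i))|

/-- `T` is `κ`-stable: for `M` a model of `T` and `A ⊆ M` of cardinality at most `κ`, the spaces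
`S_n(A)` have a subset of cardinality at most `κ` which is dense in the metric on types (the distance
of `p` and `q` is less than `ε` if they are realized, in some elementary extension of `M`, by tuples
at distance less than `ε`). -/
def StableIn (T : Set (Formula L 0)) (κ : Cardinal.{0}) : Prop :=
  ∀ M : Struct L, Models M T → ∀ A : Set M, #A ≤ κ → ∀ n : ℕ,
    ∃ S ⊆ TypeSpace M A n, #S ≤ κ ∧ ∀ p ∈ TypeSpace M A n, ∀ ε : ℝ, 0 < ε → ∃ q ∈ S,
      ∃ (N : Struct L) (f : M → N), IsElementary M N f ∧ ∃ b c : Fin n → N,
        p = tp f A b ∧ q = tp f A c ∧ dist b c < ε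

end Pool.Agent.R615.CL
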