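import Pool.Agent.R615.CL.Model

set_option autoImplicit false

/-!
# Stability of `T0`, and its definable sets
-/

open scoped unitInterval Cardinal
open Filter Topology

noncomputable section

namespace Pool.Agent.R615.CL

/-! ### No order property -/

theorem uf_pair {X : Type} (U : Ultrafilter ℕ) (u v : ℕ → X) :
    ∀ᶠ i in (U : Filter ℕ), ∀ᶠ j in (U : Filter ℕ), (u i = v j ↔ u j = v i) := by
  by_cases h : ∃ c, (∀ᶠ i in (U : Filter ℕ), u i = c) ∧ (∀ᶠ j in (U : Filter ℕ), v j = c)
  · obtain ⟨c, h1, h2⟩ := h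
    filter_upwards [h1, h2] with i hi1 hi2
    filter_upwards [h1, h2] with j hj1 hj2
    rw [hi1, hi2, hj1, hj2]
  · have key : ∀ u v : ℕ → X, (¬ ∃ c, (∀ᶠ i in (U : Filter ℕ), u i = c) ∧
        (∀ᶠ j in (U : Filter ℕ), v j = c)) →
        ∀ᶠ i in (U : Filter ℕ), ∀ᶠ j in (U : Filter ℕ), u i ≠ v j := by
      intro u v h
      by_cases h0 : ∃ i0, ∀ᶠ j in (U : Filter ℕ), v j = u i0
      · obtain ⟨i0, h0⟩ := h0
        have h1 : ¬ ∀ᶠ i in (U : Filter ℕ), u i = u i0 := fun h1 => h ⟨u i0, h1, h0⟩
        rw [← Ultrafilter.eventually_not] at h1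
        filter_upwards [h1] with i hi
        filter_upwards [h0] with j hj
        rw [hj]
        exact hi
      · push Not at h0
        refine Eventually.of_forall fun i => ?_
        filter_upwards [h0 i] with j hj
        exact fun e => hj e.symm
    have h1 := key u v h
    have h2 := key v u (fun ⟨c, a, b⟩ => h ⟨c, b, a⟩)
    filter_upwards [h1, h2] with i hi1 hi2
    filter_upwards [hi1, hi2] with j hj1 hj2
    exact ⟨fun e => absurd e hj1, fun e => absurd e.symm hj2⟩

theorem uf_self {X : Type} (U : Ultrafilter ℕ) (u v : ℕ → X) :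
    ∀ᶠ i in (U : Filter ℕ), ∀ᶠ j in (U : Filter ℕ), (u i = v i ↔ u j = v j) := by
  by_cases h : ∀ᶠ i in (U : Filter ℕ), u i = v i
  · filter_upwards [h] with i hi
    filter_upwards [h] with j hj
    exact ⟨fun _ => hj, fun _ => hi⟩
  · rw [← Ultrafilter.eventually_not] at h
    filter_upwards [h] with i hi
    filter_upwards [h] with j hj
    exact ⟨fun e => absurd e hi, fun e => absurd e hj⟩

theorem uf_close (U : Ultrafilter ℕ) (f : ℕ → I) (δ : ℝ) (hδ : 0 < δ) :
    ∀ᶠ i in (U : Filter ℕ), ∀ᶠ j in (U : Filter ℕ), dist (f i) (f j) < δ := by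
  obtain ⟨α, -, hα⟩ := isCompact_univ (X := I).ultrafilter_le_nhds (U.map f) (by simp)
  have h : ∀ᶠ i in (U : Filter ℕ), dist (f i) α < δ / 2 :=
    hα (Metric.ball_mem_nhds α (by linarith : (0 : ℝ) < δ / 2))
  filter_upwards [h] with i hi
  filter_upwards [h] with j hj
  have := dist_triangle_right (f i) (f j) α
  linarith

theorem stable_T0 : IsStable T0 := by
  rintro n m φ ε hε M hM ⟨a, b, H⟩
  have hg := good_of_models hM
  obtain ⟨δ, hδ, hcl⟩ := main_claim φ (ε / 2) (by linarith)
  let U : Ultrafilter ℕ := hyperfilter ℕ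
  have e1 : ∀ᶠ i in (U : Filter ℕ), ∀ᶠ j in (U : Filter ℕ), ∀ k l, (a i k = b j l ↔ a j k = b i l) := by
    have := fun k l => uf_pair U (fun i => a i k) (fun j => b j l)
    have h2 := eventually_all.2 fun k => eventually_all.2 fun l => this k l
    filter_upwards [h2] with i hi
    exact eventually_all.2 fun k => eventually_all.2 fun l => hi k l
  have e2 : ∀ᶠ i in (U : Filter ℕ), ∀ᶠ j in (U : Filter ℕ), ∀ k l, (a i k = a i l ↔ a j k = a j l) := by
    have := fun k l => uf_self U (fun i => a i k) (fun j => a j l)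
    have h2 := eventually_all.2 fun k => eventually_all.2 fun l => this k l
    filter_upwards [h2] with i hi
    exact eventually_all.2 fun k => eventually_all.2 fun l => hi k l
  have e3 : ∀ᶠ i in (U : Filter ℕ), ∀ᶠ j in (U : Filter ℕ), ∀ k l, (b i k = b i l ↔ b j k = b j l) := by
    have := fun k l => uf_self U (fun i => b i k) (fun j => b j l)
    have h2 := eventually_all.2 fun k => eventually_all.2 fun l => this k l
    filter_upwards [h2] with i hi
    exact eventually_all.2 fun k => eventually_all.2 fun l => hi k l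
  have e4 : ∀ᶠ i in (U : Filter ℕ), ∀ᶠ j in (U : Filter ℕ),
      ∀ k, dist (pv M (a i k)) (pv M (a j k)) < δ := by
    have := fun k => uf_close U (fun i => pv M (a i k)) δ hδ
    filter_upwards [eventually_all.2 this] with i hi
    exact eventually_all.2 hi
  have e5 : ∀ᶠ i in (U : Filter ℕ), ∀ᶠ j in (U : Filter ℕ),
      ∀ k, dist (pv M (b i k)) (pv M (b j k)) < δ := by
    have := fun k => uf_close U (fun i => pv M (b i k)) δ hδ
    filter_upwards [eventually_all.2 this] with i hi
    exact eventually_all.2 hi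
  have e6 : ∀ i : ℕ, ∀ᶠ j in (U : Filter ℕ), i < j := fun i =>
    Nat.hyperfilter_le_atTop (eventually_gt_atTop i)
  obtain ⟨i, h1, h2, h3, h4, h5⟩ := (e1.and (e2.and (e3.and (e4.and e5)))).exists
  obtain ⟨j, g1, g2, g3, g4, g5, g6⟩ :=
    (h1.and (h2.and (h3.and (h4.and (h5.and (e6 i)))))).exists
  have hpat : SamePat (Fin.append (a i) (b j)) (Fin.append (a j) (b i)) := by
    intro k l
    refine Fin.addCases (fun k => ?_) (fun k => ?_) k
    · refine Fin.addCases (fun l => ?_) (fun l => ?_) l
      · simp only [Fin.append_left]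
        exact g2 k l
      · simp only [Fin.append_left, Fin.append_right]
        exact g1 k l
    · refine Fin.addCases (fun l => ?_) (fun l => ?_) l
      · simp only [Fin.append_left, Fin.append_right]
        rw [eq_comm, g1 l k, eq_comm]
      · simp only [Fin.append_right]
        exact (g3 k l).symm
  have hdist : ∀ k, dist (pv M (Fin.append (a i) (b j) k)) (pv M (Fin.append (a j) (b i) k)) < δ := by
    intro k
    refine Fin.addCases (fun k => ?_) (fun k => ?_) k
    · simp only [Fin.append_left]
      exact g4 k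
    · simp only [Fin.append_right]
      rw [dist_comm]
      exact g5 k
  have h6 := hcl M M hg hg _ _ hpat hdist
  have h7 := H i j g6
  change |(φ.val M (Fin.append (a i) (b j)) : ℝ) - φ.val M (Fin.append (a j) (b i))| ≤ ε / 2 at h6
  linarith

/-! ### Stability in all the cardinals that are at least the continuum -/

theorem elem_models {M N : Struct L0} {f : M → N} (hf : IsElementary M N f) (hM : Models M T0) :
    Models N T0 := by
  intro φ hφ
  have h := hf 0 φ Fin.elim0
  rw [Subsingleton.elim (fun i => f (Fin.elim0 i)) Fin.elim0] at h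
  rw [h]
  exact hM φ hφ

theorem elem_pv {M N : Struct L0} {f : M → N} (hf : IsElementary M N f) (x : M) :
    pv N (f x) = pv M x :=
  hf 1 (Formula.pr P0.p (fun _ => Term.var 0)) (fun _ => x)

theorem elem_inj {M N : Struct L0} {f : M → N} (hf : IsElementary M N f) :
    Function.Injective f := by
  intro x y h
  have h1 := hf 2 (Formula.dist (Term.var 0) (Term.var 1)) ![x, y]
  have h2 : dist (f x) (f y) = dist x y := congrArg Subtype.val h1
  rw [h, dist_self] at h2
  exact dist_eq_zero.1 h2.symm

open Classical in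
/-- the data that determine a type -/
def data {M N : Struct L0} (f : M → N) (A : Set M) {n : ℕ} (b : Fin n → N) :
    (Fin n → I) × (Fin n → Option A) × (Fin n → Fin n → Prop) :=
  (fun i => pv N (b i), fun i => if h : ∃ a : A, f a = b i then some h.choose else none,
    fun i j => b i = b j)

theorem data_some {M N : Struct L0} {f : M → N} (hf : IsElementary M N f) (A : Set M) {n : ℕ}
    (b : Fin n → N) (i : Fin n) (a : A) : (data f A b).2.1 i = some a ↔ b i = f a := by
  classical
  change (if h : ∃ a : A, f a = b i then some h.choose else none) = some a ↔ b i = f a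
  constructor
  · intro h
    by_cases h0 : ∃ a : A, f a = b i
    · rw [dif_pos h0] at h
      rw [← Option.some_injective _ h]
      exact h0.choose_spec.symm
    · rw [dif_neg h0] at h
      exact absurd h (by simp)
  · intro h
    have h0 : ∃ a : A, f a = b i := ⟨a, h.symm⟩
    rw [dif_pos h0]
    congr 1
    apply Subtype.ext
    apply elem_inj hf
    rw [h0.choose_spec, h]

theorem tp_eq_of_data {M N N' : Struct L0} (hM : Models M T0) {f : M → N} {f' : M → N'}
    (hf : IsElementary M N f) (hf' : IsElementary M N' f') (A : Set M) {n : ℕ}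
    (b : Fin n → N) (b' : Fin n → N') (h : data f A b = data f' A b') :
    tp f A b = tp f' A b' := by
  have hN := good_of_models (elem_models hf hM)
  have hN' := good_of_models (elem_models hf' hM)
  have h1 : ∀ i, pv N (b i) = pv N' (b' i) := fun i => congrFun (congrArg Prod.fst h) i
  have h2 : ∀ i (a : A), b i = f a ↔ b' i = f' a := by
    intro i a
    rw [← data_some hf, ← data_some hf', h]
  have h3 : ∀ i j, (b i = b j ↔ b' i = b' j) := fun i j =>
    iff_of_eq (congrFun (congrFun (congrArg (fun x => x.2.2) h) i) j)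
  funext k φ a
  refine same_val hN hN' φ _ _ ?_ ?_
  · intro i j
    refine Fin.addCases (fun i => ?_) (fun i => ?_) i
    · refine Fin.addCases (fun j => ?_) (fun j => ?_) j
      · simp only [Fin.append_left]
        exact h3 i j
      · simp only [Fin.append_left, Fin.append_right]
        exact h2 i (a j)
    · refine Fin.addCases (fun j => ?_) (fun j => ?_) j
      · simp only [Fin.append_left, Fin.append_right]
        rw [eq_comm, h2 j (a i), eq_comm]
      · simp only [Fin.append_right]
        exact ((elem_inj hf).eq_iff).trans ((elem_inj hf').eq_iff).symm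
  · intro i
    refine Fin.addCases (fun i => ?_) (fun i => ?_) i
    · simp only [Fin.append_left]
      exact h1 i
    · simp only [Fin.append_right]
      rw [elem_pv hf, elem_pv hf']

theorem stableIn_T0 (κ : Cardinal.{0}) (hκ : 𝔠 ≤ κ) : StableIn T0 κ := by
  intro M hM A hA n
  refine ⟨TypeSpace M A n, subset_rfl, ?_, ?_⟩
  · -- the number of types
    have hinf : ℵ₀ ≤ κ := Cardinal.aleph0_le_continuum.trans hκ
    let F : TypeSpace M A n → (Fin n → I) × (Fin n → Option A) × (Fin n → Fin n → Prop) :=
      fun p => data p.2.choose_spec.choose A p.2.choose_spec.choose_spec.2.choose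
    have hF : Function.Injective F := by
      intro p q hpq
      apply Subtype.ext
      rw [p.2.choose_spec.choose_spec.2.choose_spec, q.2.choose_spec.choose_spec.2.choose_spec]
      exact tp_eq_of_data hM p.2.choose_spec.choose_spec.1 q.2.choose_spec.choose_spec.1 A _ _ hpq
    refine (Cardinal.mk_le_of_injective hF).trans ?_
    have c1 : #(Fin n → I) ≤ κ := by
      rw [← Cardinal.power_def, Cardinal.mk_fin]
      exact (Cardinal.power_le_power_right (((Cardinal.mk_set_le _).trans
        Cardinal.mk_real.le).trans hκ)).trans (Cardinal.power_nat_le hinf)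
    have c2 : #(Fin n → Option A) ≤ κ := by
      rw [← Cardinal.power_def, Cardinal.mk_fin]
      have h1 : #(Option A) ≤ κ := by
        rw [Cardinal.mk_option]
        exact Cardinal.add_le_of_le hinf hA (Cardinal.one_lt_aleph0.le.trans hinf)
      exact (Cardinal.power_le_power_right h1).trans (Cardinal.power_nat_le hinf)
    have c3 : #(Fin n → Fin n → Prop) ≤ κ := (Cardinal.mk_le_aleph0).trans hinf
    rw [Cardinal.mk_prod, Cardinal.lift_id, Cardinal.lift_id, Cardinal.mk_prod, Cardinal.lift_id,
      Cardinal.lift_id]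
    exact Cardinal.mul_le_of_le hinf c1 (Cardinal.mul_le_of_le hinf c2 c3)
  · rintro p hp ε hε
    obtain ⟨N, f, hf, b, hb⟩ := hp
    exact ⟨p, ⟨N, f, hf, b, hb⟩, N, f, hf, b, b, hb, hb, by rw [dist_self]; exact hε⟩

/-! ### There are no non-trivial definable sets -/

theorem ddef_univ {N : Struct L0} (hN : Good N) (D : Set (Fin 1 → N)) (hD : IsDDefinable N ∅ D)
    (hne : D.Nonempty) : D = Set.univ := by
  by_contra hcon
  obtain ⟨y0, hy0⟩ := (Set.ne_univ_iff_exists_notMem D).1 hcon
  obtain ⟨x0, hx0⟩ := hne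
  rcases hD.2 with h | h
  · rw [h] at hx0
    exact hx0
  obtain ⟨k, φ, a, h⟩ := h (1 / 4) (by norm_num)
  rcases k with _ | k
  swap
  · exact (a 0).2.elim
  obtain ⟨δ, hδ, hcl⟩ := main_claim φ (1 / 4) (by norm_num)
  have key : ∀ x ∈ D, ∀ y ∉ D, ¬ dist (pv N (x 0)) (pv N (y 0)) < δ := by
    intro x hx y hy hxy
    have h1 := h x
    have h2 := h y
    have h3 := hcl N N hN hN (Fin.append x (fun i => (a i : N))) (Fin.append y (fun i => (a i : N)))
      (by
        intro i j
        have : i = j := Subsingleton.elim (α := Fin 1) i j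
        rw [this]
        exact ⟨fun _ => rfl, fun _ => rfl⟩)
      (by
        intro i
        refine Fin.addCases (fun i => ?_) (fun i => i.elim0) i
        simp only [Fin.append_left]
        rw [Subsingleton.elim i 0]
        exact hxy)
    have h4 : Metric.infDist x D = 0 := Metric.infDist_zero_of_mem hx
    have h5 : 1 ≤ Metric.infDist y D := by
      rw [Metric.le_infDist ⟨x0, hx0⟩]
      intro z hz
      have hyz : y 0 ≠ z 0 := by
        intro e
        apply hy
        have : y = z := by
          funext i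
          rw [Subsingleton.elim i 0, e]
        rw [this]
        exact hz
      rw [← hN.disc _ _ hyz]
      exact dist_le_pi_dist y z 0
    have h6 : |(φ.val N (Fin.append x (fun i => (a i : N))) : ℝ) -
        φ.val N (Fin.append y (fun i => (a i : N)))| ≤ 1 / 4 := h3
    rw [abs_le] at h1 h2 h6
    linarith [h1.1, h1.2, h2.1, h2.2, h6.1, h6.2]
  let U : Set I := ⋃ x ∈ D, Metric.ball (pv N (x 0)) (δ / 2)
  let V : Set I := ⋃ y ∈ Dᶜ, Metric.ball (pv N (y 0)) (δ / 2)
  have hδ2 : 0 < δ / 2 := by linarith
  have hU : IsOpen U := isOpen_biUnion fun _ _ => Metric.isOpen_ball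
  have hV : IsOpen V := isOpen_biUnion fun _ _ => Metric.isOpen_ball
  have hUV : U ∪ V = Set.univ := by
    rw [Set.eq_univ_iff_forall]
    intro r
    obtain ⟨y, hy, -⟩ := hN.many r (δ / 2) hδ2 0 Fin.elim0
    by_cases hyD : (fun _ => y : Fin 1 → N) ∈ D
    · left
      exact Set.mem_biUnion hyD (by rw [Metric.mem_ball, dist_comm]; exact hy)
    · right
      exact Set.mem_biUnion (show (fun _ => y : Fin 1 → N) ∈ Dᶜ from hyD)
        (by rw [Metric.mem_ball, dist_comm]; exact hy)
  have hUn : U.Nonempty := ⟨_, Set.mem_biUnion hx0 (Metric.mem_ball_self hδ2)⟩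
  have hVn : V.Nonempty :=
    ⟨_, Set.mem_biUnion (show y0 ∈ Dᶜ from hy0) (Metric.mem_ball_self hδ2)⟩
  obtain ⟨r, hr1, hr2⟩ := nonempty_inter hU hV hUV hUn hVn
  obtain ⟨x, hx, hxr⟩ := Set.mem_iUnion₂.1 hr1
  obtain ⟨y, hy, hyr⟩ := Set.mem_iUnion₂.1 hr2
  rw [Metric.mem_ball, dist_comm] at hxr hyr
  refine key x hx y hy ?_
  have := dist_triangle_right (pv N (x 0)) (pv N (y 0)) r
  linarith

/-- The points `(r, 0)` of `M0` -/
def pt (r : I) : Fin 1 → M0 := fun _ => ((r, 0) : I × ℕ)

theorem not_hasEnough_T0 : ¬ HasEnough T0 := by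
  intro h
  obtain ⟨F, hF, hFp⟩ := h M0 models_M0 ∅ 1 (tp id ∅ (pt 0)) ⟨M0, id, fun _ _ _ => rfl, pt 0, rfl⟩
  have h0 : pt 0 ∈ realizations M0 ∅ 1 (tp id ∅ (pt 0)) := rfl
  have h1 : ⋂₀ F = Set.univ := by
    rw [Set.sInter_eq_univ]
    intro D hD
    refine ddef_univ good_M0 D (hF D hD) ⟨pt 0, ?_⟩
    rw [← hFp] at h0
    exact h0 D hD
  rw [h1] at hFp
  have h2 : pt 1 ∈ realizations M0 ∅ 1 (tp id ∅ (pt 0)) := by
    rw [← hFp]
    trivial
  have h3 : tp id ∅ (pt 1) = tp (M := M0) (N := M0) id ∅ (pt 0) := h2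
  have h4 := congrFun (congrFun (congrFun h3 0) (Formula.pr P0.p (fun _ => Term.var 0)))
    (fun i => i.elim0)
  have h5 : (1 : I) = 0 := h4
  exact one_ne_zero h5

end Pool.Agent.R615.CL
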