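import Pool.Agent.R615.CL.Defs

set_option autoImplicit false

/-!
# The theory of a discrete metric space with a predicate all of whose values occur infinitely often
-/

open scoped unitInterval Cardinal
open Filter Topology

noncomputable section

namespace Pool.Agent.R615.CL

/-- The only symbol of the signature `L0`: a unary predicate. -/
inductive P0 : ℕ → Type
  | p : P0 1

/-- The signature with a unary predicate symbol. -/
def L0 : Signature where
  Fn := fun _ => Empty
  Pr := P0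
  modF := fun {_} f _ => Empty.elim f
  modP := fun {_} _ _ => 1
  modF_pos := fun {_} f _ _ => Empty.elim f
  modP_pos := fun {_} _ _ _ => one_pos

/-- the value of the predicate -/
def pv (N : Struct L0) (x : N) : I := N.pr P0.p (fun _ => x)

/-- discrete structures in which all values are approximated infinitely often -/
structure Good (N : Struct L0) : Prop where
  disc : ∀ x y : N, x ≠ y → dist x y = 1
  many : ∀ (r : I) (ε : ℝ), 0 < ε → ∀ (n : ℕ) (x : Fin n → N), ∃ y : N, dist (pv N y) r < ε ∧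
    ∀ i, x i ≠ y

theorem term_cases {n : ℕ} (t : Term L0 n) : ∃ i, t = Term.var i := by
  cases t with
  | var i => exact ⟨i, rfl⟩
  | app f _ => exact Empty.elim f

/-- the same equality pattern -/
def SamePat {X Y : Type} {n : ℕ} (x : Fin n → X) (y : Fin n → Y) : Prop :=
  ∀ i j, x i = x j ↔ y i = y j

theorem SamePat.symm {X Y : Type} {n : ℕ} {x : Fin n → X} {y : Fin n → Y} (h : SamePat x y) :
    SamePat y x := fun i j => (h i j).symm

/-- one direction of the back and forth -/
theorem extend {N N' : Struct L0} (_hN : Good N) (hN' : Good N') {n : ℕ} {x : Fin n → N}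
    {x' : Fin n → N'} (h : SamePat x x') {δ : ℝ} (hδ : 0 < δ)
    (hd : ∀ i, dist (pv N (x i)) (pv N' (x' i)) < δ) (y : N) :
    ∃ y' : N', SamePat (Fin.snoc (α := fun _ => N.carrier) x y)
        (Fin.snoc (α := fun _ => N'.carrier) x' y') ∧
      ∀ i, dist (pv N (Fin.snoc (α := fun _ => N.carrier) x y i))
        (pv N' (Fin.snoc (α := fun _ => N'.carrier) x' y' i)) < δ := by
  by_cases hy : ∃ i, x i = y
  · obtain ⟨i, rfl⟩ := hy
    refine ⟨x' i, ?_, ?_⟩
    · intro j k
      refine Fin.lastCases ?_ (fun j => ?_) j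
      · refine Fin.lastCases ?_ (fun k => ?_) k
        · simp
        · simp only [Fin.snoc_last, Fin.snoc_castSucc]
          exact h _ _
      · refine Fin.lastCases ?_ (fun k => ?_) k
        · simp only [Fin.snoc_last, Fin.snoc_castSucc]
          exact h _ _
        · simp only [Fin.snoc_castSucc]
          exact h _ _
    · intro j
      refine Fin.lastCases ?_ (fun j => ?_) j
      · simp only [Fin.snoc_last]
        exact hd i
      · simp only [Fin.snoc_castSucc]
        exact hd j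
  · push Not at hy
    obtain ⟨y', hy1, hy2⟩ := hN'.many (pv N y) δ hδ n x'
    refine ⟨y', ?_, ?_⟩
    · intro j k
      refine Fin.lastCases ?_ (fun j => ?_) j
      · refine Fin.lastCases ?_ (fun k => ?_) k
        · simp
        · simp only [Fin.snoc_last, Fin.snoc_castSucc]
          exact ⟨fun e => absurd e.symm (hy k), fun e => absurd e.symm (hy2 k)⟩
      · refine Fin.lastCases ?_ (fun k => ?_) k
        · simp only [Fin.snoc_last, Fin.snoc_castSucc]
          exact ⟨fun e => absurd e (hy j), fun e => absurd e (hy2 j)⟩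
        · simp only [Fin.snoc_castSucc]
          exact h _ _
    · intro j
      refine Fin.lastCases ?_ (fun j => ?_) j
      · simp only [Fin.snoc_last]
        rw [dist_comm]
        exact hy1
      · simp only [Fin.snoc_castSucc]
        exact hd j

theorem iSup_le_add {X Y : Type} (f : X → I) (g : Y → I) (ε : ℝ) (hε : 0 ≤ ε)
    (h : ∀ x, ∃ y, dist (f x) (g y) ≤ ε) : ((⨆ x, f x : I) : ℝ) ≤ (⨆ y, g y : I) + ε := by
  have h0 : (0 : ℝ) ≤ (⨆ y, g y : I) := (⨆ y, g y : I).2.1
  let t : I := ⟨min 1 ((⨆ y, g y : I) + ε), le_min zero_le_one (by linarith), min_le_left _ _⟩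
  have h1 : (⨆ x, f x : I) ≤ t := by
    refine iSup_le fun x => ?_
    obtain ⟨y, hy⟩ := h x
    have h2 : (g y : ℝ) ≤ (⨆ y, g y : I) := le_iSup g y
    have h3 : |(f x : ℝ) - g y| ≤ ε := hy
    have h4 : (f x : ℝ) ≤ g y + ε := by
      have := (abs_le.1 h3).2
      linarith
    change (f x : ℝ) ≤ min 1 _
    exact le_min (f x).2.2 (by linarith)
  exact (show ((⨆ x, f x : I) : ℝ) ≤ t from h1).trans (min_le_right _ _)

theorem le_iInf_sub {X Y : Type} (f : X → I) (g : Y → I) (ε : ℝ) (hε : 0 ≤ ε)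
    (h : ∀ x, ∃ y, dist (f x) (g y) ≤ ε) : ((⨅ y, g y : I) : ℝ) - ε ≤ (⨅ x, f x : I) := by
  have h0 : ((⨅ y, g y : I) : ℝ) ≤ 1 := (⨅ y, g y : I).2.2
  let t : I := ⟨max 0 ((⨅ y, g y : I) - ε), le_max_left _ _, max_le zero_le_one (by linarith)⟩
  have h1 : t ≤ (⨅ x, f x : I) := by
    refine le_iInf fun x => ?_
    obtain ⟨y, hy⟩ := h x
    have h2 : ((⨅ y, g y : I) : ℝ) ≤ g y := iInf_le g y
    have h3 : |(f x : ℝ) - g y| ≤ ε := hy
    have h4 : (g y : ℝ) - ε ≤ f x := by
      have := (abs_le.1 h3).1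
      linarith
    change max 0 _ ≤ (f x : ℝ)
    exact max_le (f x).2.1 (by linarith)
  exact (le_max_right _ _).trans (show (t : ℝ) ≤ (⨅ x, f x : I) from h1)

theorem dist_iSup {X Y : Type} (f : X → I) (g : Y → I) (ε : ℝ) (hε : 0 ≤ ε)
    (h : ∀ x, ∃ y, dist (f x) (g y) ≤ ε) (h' : ∀ y, ∃ x, dist (g y) (f x) ≤ ε) :
    dist (⨆ x, f x) (⨆ y, g y) ≤ ε := by
  have h1 := iSup_le_add f g ε hε h
  have h2 := iSup_le_add g f ε hε h'
  change |((⨆ x, f x : I) : ℝ) - (⨆ y, g y : I)| ≤ ε
  rw [abs_le]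
  constructor <;> linarith

theorem dist_iInf {X Y : Type} (f : X → I) (g : Y → I) (ε : ℝ) (hε : 0 ≤ ε)
    (h : ∀ x, ∃ y, dist (f x) (g y) ≤ ε) (h' : ∀ y, ∃ x, dist (g y) (f x) ≤ ε) :
    dist (⨅ x, f x) (⨅ y, g y) ≤ ε := by
  have h1 := le_iInf_sub f g ε hε h
  have h2 := le_iInf_sub g f ε hε h'
  change |((⨅ x, f x : I) : ℝ) - (⨅ y, g y : I)| ≤ ε
  rw [abs_le]
  constructor <;> linarith

theorem pr_eq {N : Struct L0} {n k : ℕ} (P : L0.Pr k) (ts : Fin k → Term L0 n) : ∃ i : Fin n,
    ∀ (N : Struct L0) (x : Fin n → N), (Formula.pr P ts).val N x = pv N (x i) := by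
  cases P with
  | p =>
    obtain ⟨i, hi⟩ := term_cases (ts 0)
    refine ⟨i, fun N x => ?_⟩
    change N.pr P0.p (fun j => (ts j).val N x) = N.pr P0.p (fun _ => x i)
    congr 1
    funext j
    rw [Subsingleton.elim j 0, hi]
    rfl

/-- The main lemma: the value of a formula depends (uniformly) continuously on the values of the
predicate, for a fixed equality pattern. -/
theorem main_claim {n : ℕ} (φ : Formula L0 n) : ∀ ε : ℝ, 0 < ε → ∃ δ : ℝ, 0 < δ ∧
    ∀ (N N' : Struct L0), Good N → Good N' → ∀ (x : Fin n → N) (x' : Fin n → N'), SamePat x x' →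
      (∀ i, dist (pv N (x i)) (pv N' (x' i)) < δ) → dist (φ.val N x) (φ.val N' x') ≤ ε := by
  induction φ with
  | @dist n s t =>
    intro ε hε
    refine ⟨1, one_pos, fun N N' hN hN' x x' hx _ => ?_⟩
    obtain ⟨i, rfl⟩ := term_cases s
    obtain ⟨j, rfl⟩ := term_cases t
    have : (Formula.dist (Term.var i) (Term.var j)).val N x =
        (Formula.dist (Term.var i) (Term.var j)).val N' x' := by
      apply Subtype.ext
      change dist (x i) (x j) = dist (x' i) (x' j)
      by_cases h : x i = x j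
      · rw [h, (hx i j).1 h, dist_self, dist_self]
      · rw [hN.disc _ _ h, hN'.disc _ _ (fun e => h ((hx i j).2 e))]
    rw [this, dist_self]
    exact hε.le
  | @pr n k P ts =>
    intro ε hε
    refine ⟨ε, hε, fun N N' hN hN' x x' hx hd => ?_⟩
    obtain ⟨i, hi⟩ := pr_eq (N := N) P ts
    rw [hi, hi]
    exact (hd i).le
  | @conn n k u φ ih =>
    intro ε hε
    have hu : UniformContinuous u := CompactSpace.uniformContinuous_of_continuous u.continuous
    obtain ⟨η, hη, hu⟩ := Metric.uniformContinuous_iff.1 hu ε hε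
    choose δ hδ h using fun i => ih i (η / 2) (by linarith)
    have hfin : ∃ δ0 : ℝ, 0 < δ0 ∧ ∀ i, δ0 ≤ δ i := by
      rcases Nat.eq_zero_or_pos k with hk | hk
      · subst hk
        exact ⟨1, one_pos, fun i => i.elim0⟩
      · haveI : Nonempty (Fin k) := ⟨⟨0, hk⟩⟩
        obtain ⟨i0, hi0⟩ := Finite.exists_min δ
        exact ⟨δ i0, hδ i0, hi0⟩
    obtain ⟨δ0, hδ0, hle⟩ := hfin
    refine ⟨δ0, hδ0, fun N N' hN hN' x x' hx hd => ?_⟩
    refine (hu ?_).le
    rw [dist_pi_lt_iff hη]
    intro i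
    refine lt_of_le_of_lt (h i N N' hN hN' x x' hx fun j => (hd j).trans_le (hle i)) ?_
    linarith
  | @sup n φ ih =>
    intro ε hε
    obtain ⟨δ, hδ, h⟩ := ih ε hε
    refine ⟨δ, hδ, fun N N' hN hN' x x' hx hd => ?_⟩
    refine dist_iSup _ _ ε hε.le (fun y => ?_) (fun y' => ?_)
    · obtain ⟨y', h1, h2⟩ := extend hN hN' hx hδ hd y
      exact ⟨y', h N N' hN hN' _ _ h1 h2⟩
    · obtain ⟨y, h1, h2⟩ := extend hN' hN hx.symm hδ (fun i => by rw [dist_comm]; exact hd i) y'
      exact ⟨y, h N' N hN' hN _ _ h1 h2⟩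
  | @inf n φ ih =>
    intro ε hε
    obtain ⟨δ, hδ, h⟩ := ih ε hε
    refine ⟨δ, hδ, fun N N' hN hN' x x' hx hd => ?_⟩
    refine dist_iInf _ _ ε hε.le (fun y => ?_) (fun y' => ?_)
    · obtain ⟨y', h1, h2⟩ := extend hN hN' hx hδ hd y
      exact ⟨y', h N N' hN hN' _ _ h1 h2⟩
    · obtain ⟨y, h1, h2⟩ := extend hN' hN hx.symm hδ (fun i => by rw [dist_comm]; exact hd i) y'
      exact ⟨y, h N' N hN' hN _ _ h1 h2⟩

end Pool.Agent.R615.CL
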