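import Pool.Agent.R615.CL.Main

set_option autoImplicit false

/-!
# The theory `T0` and its models
-/

open scoped unitInterval Cardinal
open Filter Topology

noncomputable section

namespace Pool.Agent.R615.CL

/-- the points of the structure `M0` -/
def Pt : Type := I × ℕ

open Classical in
/-- the discrete metric -/
instance : MetricSpace Pt where
  dist x y := if x = y then 0 else 1
  dist_self x := if_pos rfl
  dist_comm x y := by
    by_cases h : x = y
    · rw [if_pos h, if_pos h.symm]
    · rw [if_neg h, if_neg (Ne.symm h)]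
  dist_triangle x y z := by
    by_cases h : x = z
    · rw [if_pos h]
      split_ifs <;> norm_num
    · rw [if_neg h]
      by_cases h1 : x = y
      · subst h1
        rw [if_pos rfl, if_neg h]
        norm_num
      · rw [if_neg h1]
        split_ifs <;> norm_num
  eq_of_dist_eq_zero := by
    intro x y h
    by_contra hc
    rw [if_neg hc] at h
    exact one_ne_zero h

theorem Pt.dist_ne {x y : Pt} (h : x ≠ y) : dist x y = 1 := if_neg h

instance : CompleteSpace Pt := by
  refine Metric.complete_of_cauchySeq_tendsto fun u hu => ?_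
  obtain ⟨N, hN⟩ := Metric.cauchySeq_iff'.1 hu 1 one_pos
  refine ⟨u N, ?_⟩
  refine tendsto_const_nhds.congr' ?_
  filter_upwards [eventually_ge_atTop N] with n hn
  by_contra hc
  have := hN n hn
  rw [Pt.dist_ne (Ne.symm hc)] at this
  exact lt_irrefl _ this

/-- the structure with the set of points `[0,1] × ℕ` and the predicate `P(r,n) = r` -/
def M0 : Struct L0 where
  carrier := Pt
  nonempty := ⟨((0 : I), (0 : ℕ))⟩
  dist_le x y := by
    by_cases h : x = y
    · rw [h, dist_self]; exact zero_le_one
    · exact (Pt.dist_ne h).le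
  fn := fun {_} f _ => Empty.elim f
  pr := fun {n} (P : P0 n) => match n, P with
    | _, P0.p => fun x => (x 0 : I × ℕ).1
  fn_unif := fun {_} f _ _ _ _ => Empty.elim f
  pr_unif := by
    intro n P ε hε x y h
    have : x = y := by
      funext i
      by_contra hc
      have h1 := h i
      rw [Pt.dist_ne hc] at h1
      exact lt_irrefl _ h1
    rw [this, dist_self]
    exact hε.le

theorem pv_M0 (x : M0) : pv M0 x = (x : I × ℕ).1 := rfl

theorem good_M0 : Good M0 where
  disc x y h := Pt.dist_ne h
  many r ε hε n x := by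
    obtain ⟨m, hm⟩ := (Set.finite_range fun i => ((x i : I × ℕ).2)).exists_notMem
    refine ⟨((r, m) : I × ℕ), ?_, ?_⟩
    · change dist r r < ε
      rw [dist_self]
      exact hε
    · intro i h
      apply hm
      exact ⟨i, congrArg Prod.snd (show (x i : I × ℕ) = (r, m) from h)⟩

/-- the theory of `M0` -/
def T0 : Set (Formula L0 0) := {φ | φ.val M0 Fin.elim0 = 0}

theorem models_M0 : Models M0 T0 := fun _ h => h

/-- all the variables bounded by `sup` -/
def supAll : (n : ℕ) → Formula L0 n → Formula L0 0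
  | 0, φ => φ
  | n + 1, φ => supAll n (Formula.sup φ)

theorem supAll_val (N : Struct L0) : ∀ (n : ℕ) (φ : Formula L0 n),
    (supAll n φ).val N Fin.elim0 = 0 ↔ ∀ x : Fin n → N, φ.val N x = 0 := by
  intro n
  induction n with
  | zero =>
    intro φ
    constructor
    · intro h x
      rw [Subsingleton.elim x Fin.elim0]
      exact h
    · intro h
      exact h _
  | succ n ih =>
    intro φ
    change (supAll n (Formula.sup φ)).val N Fin.elim0 = 0 ↔ _
    rw [ih]
    constructor
    · intro h x
      have h1 := h (fun i => x i.castSucc)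
      change (⨆ y : N, φ.val N (Fin.snoc (α := fun _ => N.carrier) (fun i => x i.castSucc) y)) = ⊥ at h1
      rw [iSup_eq_bot] at h1
      have h2 := h1 (x (Fin.last n))
      have h3 : (Fin.snoc (α := fun _ => N.carrier) (fun i => x i.castSucc) (x (Fin.last n)) :
          Fin (n + 1) → N) = x := by
        funext i
        refine Fin.lastCases ?_ (fun i => ?_) i <;> simp
      rw [h3] at h2
      exact h2
    · intro h x
      change (⨆ y : N, φ.val N (Fin.snoc (α := fun _ => N.carrier) x y)) = ⊥
      rw [iSup_eq_bot]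
      intro y
      exact h _

/-- `min t (1 - t)` -/
def u1 : C(Fin 1 → I, I) := ⟨fun v => v 0 ⊓ σ (v 0), by fun_prop⟩

/-- the first axiom -/
def ax1 : Formula L0 0 :=
  supAll 2 (Formula.conn 1 u1 (fun _ => Formula.dist (Term.var 0) (Term.var 1)))

theorem ax1_val (N : Struct L0) : ax1.val N Fin.elim0 = 0 ↔
    ∀ x y : N, dist x y = 0 ∨ dist x y = 1 := by
  rw [ax1, supAll_val]
  have key : ∀ t : I, t ⊓ σ t = 0 ↔ (t : ℝ) = 0 ∨ (t : ℝ) = 1 := by
    intro t
    rw [Subtype.ext_iff]
    change min (t : ℝ) (1 - t) = 0 ↔ _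
    have h0 := t.2.1
    have h1 := t.2.2
    constructor
    · intro h
      rcases min_choice (t : ℝ) (1 - t) with h2 | h2
      · left; linarith
      · right; linarith
    · rintro (h | h)
      · rw [h]; norm_num
      · rw [h]; norm_num
  constructor
  · intro h x y
    exact (key _).1 (h ![x, y])
  · intro h x
    exact (key _).2 (h (x 0) (x 1))

/-- the distance to `r` as a connective -/
def adist (r : I) (t : I) : I := ⟨dist t r, dist_nonneg, by
  rw [Subtype.dist_eq, Real.dist_eq, abs_le]
  constructor <;> linarith [t.2.1, t.2.2, r.2.1, r.2.2]⟩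

theorem adist_continuous (r : I) : Continuous (adist r) := by
  refine Continuous.subtype_mk ?_ _
  fun_prop

/-- `max (|v_n - r|, 1 - v_0, ..., 1 - v_{n-1})` -/
def u2 (r : I) (n : ℕ) : C(Fin (n + 1) → I, I) :=
  ⟨fun v => adist r (v (Fin.last n)) ⊔ Finset.univ.sup (fun i : Fin n => σ (v i.castSucc)), by
    refine Continuous.sup ((adist_continuous r).comp (continuous_apply _)) ?_
    refine Continuous.finset_sup_apply fun i _ => ?_
    fun_prop⟩

/-- the second axiom -/
def ax2 (r : I) (n : ℕ) : Formula L0 0 :=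
  supAll n (Formula.inf (Formula.conn (n + 1) (u2 r n)
    (Fin.snoc (α := fun _ => Formula L0 (n + 1))
      (fun i => Formula.dist (Term.var i.castSucc) (Term.var (Fin.last n)))
      (Formula.pr P0.p (fun _ => Term.var (Fin.last n))))))

theorem ax2_inner (N : Struct L0) (r : I) (n : ℕ) (x : Fin n → N) (y : N) :
    (Formula.conn (n + 1) (u2 r n)
    (Fin.snoc (α := fun _ => Formula L0 (n + 1))
      (fun i => Formula.dist (Term.var i.castSucc) (Term.var (Fin.last n)))
      (Formula.pr P0.p (fun _ => Term.var (Fin.last n))))).val N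
        (Fin.snoc (α := fun _ => N.carrier) x y) =
    adist r (pv N y) ⊔ Finset.univ.sup (fun i : Fin n => σ ⟨dist (x i) y, dist_nonneg, N.dist_le _ _⟩) := by
  change adist r (Formula.val N (Fin.snoc (α := fun _ => Formula L0 (n + 1))
      (fun i => Formula.dist (Term.var i.castSucc) (Term.var (Fin.last n)))
      (Formula.pr P0.p (fun _ => Term.var (Fin.last n))) (Fin.last n)) _) ⊔
      Finset.univ.sup (fun i : Fin n => σ (Formula.val N (Fin.snoc (α := fun _ => Formula L0 (n + 1))
      (fun i => Formula.dist (Term.var i.castSucc) (Term.var (Fin.last n)))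
      (Formula.pr P0.p (fun _ => Term.var (Fin.last n))) i.castSucc) _)) = _
  congr 1
  · rw [Fin.snoc_last]
    congr 1
    change N.pr P0.p (fun _ => Fin.snoc (α := fun _ => N.carrier) x y (Fin.last n)) =
      N.pr P0.p (fun _ => y)
    rw [Fin.snoc_last]
  · refine Finset.sup_congr rfl fun i _ => ?_
    rw [Fin.snoc_castSucc]
    congr 1
    apply Subtype.ext
    change dist (Fin.snoc (α := fun _ => N.carrier) x y i.castSucc)
      (Fin.snoc (α := fun _ => N.carrier) x y (Fin.last n)) = dist (x i) y
    rw [Fin.snoc_last, Fin.snoc_castSucc]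

theorem ax2_val (N : Struct L0) (r : I) (n : ℕ) : (ax2 r n).val N Fin.elim0 = 0 ↔
    ∀ (x : Fin n → N), ∀ ε : ℝ, 0 < ε → ∃ y : N, dist (pv N y) r < ε ∧
      ∀ i, 1 - dist (x i) y < ε := by
  rw [ax2, supAll_val]
  refine forall_congr' fun x => ?_
  change (⨅ y : N, (Formula.conn (n + 1) (u2 r n) _).val N
    (Fin.snoc (α := fun _ => N.carrier) x y)) = ⊥ ↔ _
  simp only [ax2_inner]
  rw [iInf_eq_bot]
  constructor
  · intro h ε hε
    obtain ⟨ε', hε', h1, h2⟩ : ∃ ε' : I, 0 < ε' ∧ (ε' : ℝ) ≤ ε ∧ True := by
      refine ⟨⟨min 1 ε, le_min zero_le_one hε.le, min_le_left _ _⟩, ?_, min_le_right _ _, trivial⟩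
      change (0 : ℝ) < min 1 ε
      exact lt_min one_pos hε
    obtain ⟨y, hy⟩ := h ε' hε'
    rw [sup_lt_iff] at hy
    refine ⟨y, ?_, fun i => ?_⟩
    · exact lt_of_lt_of_le (show ((adist r (pv N y) : I) : ℝ) < ε' from hy.1) h1
    · have h3 := lt_of_le_of_lt (Finset.le_sup (f := fun i : Fin n =>
        σ (⟨dist (x i) y, dist_nonneg, N.dist_le _ _⟩ : I)) (Finset.mem_univ i)) hy.2
      exact lt_of_lt_of_le (show (1 - dist (x i) y : ℝ) < ε' from h3) h1
  · intro h b hb
    obtain ⟨y, h1, h2⟩ := h (b : ℝ) hb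
    refine ⟨y, ?_⟩
    rw [sup_lt_iff]
    refine ⟨h1, ?_⟩
    rw [Finset.sup_lt_iff hb]
    intro i _
    exact h2 i

theorem good_of_models {N : Struct L0} (h : Models N T0) : Good N := by
  have h1 : ax1 ∈ T0 := by
    change ax1.val M0 Fin.elim0 = 0
    rw [ax1_val]
    intro x y
    by_cases e : x = y
    · left; rw [e, dist_self]
    · right; exact good_M0.disc x y e
  have h2 : ∀ r n, ax2 r n ∈ T0 := by
    intro r n
    change (ax2 r n).val M0 Fin.elim0 = 0
    rw [ax2_val]
    intro x ε hε
    obtain ⟨y, hy1, hy2⟩ := good_M0.many r ε hε n x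
    refine ⟨y, hy1, fun i => ?_⟩
    rw [good_M0.disc _ _ (hy2 i)]
    simpa using hε
  have h1' := (ax1_val N).1 (h _ h1)
  constructor
  · intro x y hxy
    exact (h1' x y).resolve_left (fun e => hxy (dist_eq_zero.1 e))
  · intro r ε hε n x
    obtain ⟨y, hy1, hy2⟩ := (ax2_val N r n).1 (h _ (h2 r n)) x (min ε 1) (lt_min hε one_pos)
    refine ⟨y, hy1.trans_le (min_le_left _ _), fun i e => ?_⟩
    have h3 := (hy2 i).trans_le (min_le_right _ _)
    rw [e, dist_self] at h3
    linarith

theorem same_val {N N' : Struct L0} (hN : Good N) (hN' : Good N') {n : ℕ} (φ : Formula L0 n)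
    (x : Fin n → N) (x' : Fin n → N') (hx : SamePat x x')
    (hp : ∀ i, pv N (x i) = pv N' (x' i)) : φ.val N x = φ.val N' x' := by
  rw [← dist_le_zero]
  refine le_of_forall_pos_le_add fun ε hε => ?_
  obtain ⟨δ, hδ, h⟩ := main_claim φ ε hε
  rw [zero_add]
  refine h N N' hN hN' x x' hx fun i => ?_
  rw [hp i, dist_self]
  exact hδ

theorem complete_T0 : IsComplete T0 := by
  refine ⟨⟨M0, models_M0⟩, fun M N hM hN φ => ?_⟩
  exact same_val (good_of_models hM) (good_of_models hN) φ _ _ (fun i => i.elim0) (fun i => i.elim0)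

end Pool.Agent.R615.CL
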